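import Mathlib
import Pool.Agent.Y307.EL.Fir
import Pool.Agent.Results.MP_c74d57_an.MedianCounterexample

set_option autoImplicit false

/-!
# Multi-block `ℓ¹` optimal control: non-rational optima in every format

The definitions `MSeq`, `IsL1`, `conv`, `norm1`, `IsTransform`, `IsRational`, `OneBlock` and
`IsOptimal` are those of the earlier result `MedianCounterexample` of this repository.

`result` determines exactly the formats `(nz, nw, nu, ny)` in which the question has a negative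
answer, with counterexamples in which `U` and `V` are polynomial matrices with integer
coefficients, nondegenerate, with a sharp minimum and with a value of the optimal solution which
is not even D-finite, and it gives counterexamples in which also `H` is a polynomial matrix with
integer coefficients.
-/

namespace Pool.Agent.Results.MP_c74d57_an.EveryFormat

open Pool.Agent.Y307.EL Polynomial
open Pool.Agent.Results.MP_c74d57_an.MedianCounterexample
  (MSeq IsL1 conv norm1 IsTransform IsRational OneBlock IsOptimal)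

/-- A negative answer: a rational multi-block instance of the format given by the sizes of
`H`, `U`, `V` which attains its minimum while no optimal solution is rational. -/
def Counterexample {nz nw nu ny : ℕ} (H : MSeq nz nw) (U : MSeq nz nu) (V : MSeq ny nw) : Prop :=
  IsL1 H ∧ IsL1 U ∧ IsL1 V ∧ IsRational H ∧ IsRational U ∧ IsRational V ∧ ¬ OneBlock U V ∧
  (∃ Q : MSeq nu ny, IsOptimal H U V Q) ∧
  ∀ Q : MSeq nu ny, IsOptimal H U V Q → ¬ IsRational Q

/-- The optimum is sharp and not D-finite: there are an optimal solution `Q₀` and an entry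
`(m, l)` such that the entry of `Q₀` is not P-recursive, while every `Q` in `ℓ¹` costs at least
half of its `ℓ¹` distance to `Q₀` in this entry more than `Q₀`. In particular every optimal
solution has the same entry as `Q₀` at `(m, l)`. -/
def SharpNotDFinite {nz nw nu ny : ℕ} (H : MSeq nz nw) (U : MSeq nz nu) (V : MSeq ny nw) : Prop :=
  ∃ (Q₀ : MSeq nu ny) (m : Fin nu) (l : Fin ny),
    ¬ IsPRec (fun k => Q₀ k m l) ∧ IsOptimal H U V Q₀ ∧
    ∀ Q : MSeq nu ny, IsL1 Q →
      norm1 (H - conv (conv U Q₀) V) + 1 / 2 * ∑' k, |Q k m l - Q₀ k m l|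
        ≤ norm1 (H - conv (conv U Q) V)

lemma sharp_not {nz nw nu ny : ℕ} {H : MSeq nz nw} {U : MSeq nz nu} {V : MSeq ny nw}
    {Q₀ : MSeq nu ny} {m : Fin nu} {l : Fin ny} (h : Sharp H U V Q₀ m l)
    (hp : ∀ k, Q₀ k m l = qs cd k) : SharpNotDFinite H U V := by
  refine ⟨Q₀, m, l, ?_, h.isOptimal, h.2⟩
  have : (fun k => Q₀ k m l) = qs cd := funext hp
  rw [this]
  exact not_isPRec_qs

lemma counterexample_of {nz nw nu ny : ℕ} {H : MSeq nz nw} {U : MSeq nz nu} {V : MSeq ny nw}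
    (hH : IsL1 H) (hU : IsL1 U) (hV : IsL1 V) (rH : IsRational H) (rU : IsRational U)
    (rV : IsRational V) (hb : ¬ OneBlock U V) (hs : SharpNotDFinite H U V) :
    Counterexample H U V := by
  obtain ⟨Q₀, m, l, hp, hopt, hsharp⟩ := hs
  refine ⟨hH, hU, hV, rH, rU, rV, hb, ⟨Q₀, hopt⟩, fun Q hQ hrat => ?_⟩
  have h1 : ∀ k, Q k m l = Q₀ k m l := Sharp.entry ⟨hopt.1, hsharp⟩ hQ
  have h2 := isPRec_of_isRational hrat m l
  simp only [h1] at h2
  exact hp h2

lemma intPoly_all {p q : ℕ} {V : MSeq p q} {A : Fin p → Fin q → ℤ[X]}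
    (hV : ∀ i j, PS V i j = zp (A i j)) : IsL1 V ∧ IsRational V ∧ IsIntPoly V := by
  refine ⟨isL1_of_stab (fun i j => ?_), isRational_of (fun i j => ?_), isIntPoly_of hV⟩
  · rw [hV]; exact L1_zp _
  · rw [hV]; exact (Stab.zp _).rat

lemma row_case (nz nw nu ny : ℕ) (h1 : 1 ≤ nz) (h2 : 2 ≤ nw) (h3 : 1 ≤ nu) (h4 : 1 ≤ ny) :
    ∃ (H : MSeq nz nw) (U : MSeq nz nu) (V : MSeq ny nw),
      Counterexample H U V ∧ IsIntPoly U ∧ IsIntPoly V ∧
      (nu ≤ nz → ny < nw → FullRank U V) ∧ SharpNotDFinite H U V := by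
  have hU := intPoly_all (V := UR nz nu) PS_UR
  have hV := intPoly_all (V := VR nw ny) PS_VR
  have hs : SharpNotDFinite (HR nz nw) (UR nz nu) (VR nw ny) :=
    sharp_not (sharp_row h1 h2 (⟨0, h3⟩ : Fin nu) rfl (⟨0, h4⟩ : Fin ny) rfl)
      (Qs_apply _ _ rfl rfl)
  refine ⟨HR nz nw, UR nz nu, VR nw ny, ?_, hU.2.2, hV.2.2, fullRank_row, hs⟩
  exact counterexample_of (isL1_of_stab (fun i j => (stab_HR i j).L1)) hU.1 hV.1
    (isRational_of (fun i j => (stab_HR i j).rat)) hU.2.1 hV.2.1 (not_oneBlock_row h2) hs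

lemma col_case (nz nw nu ny : ℕ) (h1 : 2 ≤ nz) (h2 : 1 ≤ nw) (h3 : 1 ≤ nu) (h4 : 1 ≤ ny) :
    ∃ (H : MSeq nz nw) (U : MSeq nz nu) (V : MSeq ny nw),
      Counterexample H U V ∧ IsIntPoly U ∧ IsIntPoly V ∧
      (nu < nz → ny ≤ nw → FullRank U V) ∧ SharpNotDFinite H U V := by
  have hU := intPoly_all (V := UC nz nu) PS_UC
  have hV := intPoly_all (V := VC nw ny) PS_VC
  have hs : SharpNotDFinite (HC nz nw) (UC nz nu) (VC nw ny) :=
    sharp_not (sharp_col h2 h1 (⟨0, h3⟩ : Fin nu) rfl (⟨0, h4⟩ : Fin ny) rfl)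
      (Qs_apply _ _ rfl rfl)
  refine ⟨HC nz nw, UC nz nu, VC nw ny, ?_, hU.2.2, hV.2.2, fullRank_col, hs⟩
  exact counterexample_of (isL1_of_stab L1_HC) hU.1 hV.1
    (isRational_of rat_HC) hU.2.1 hV.2.1 (not_oneBlock_col h1) hs

lemma fir_case (nz nw nu ny : ℕ) (h1 : 1 ≤ nz) (h2 : 3 ≤ nw) (h3 : 1 ≤ nu) (h4 : 2 ≤ ny) :
    ∃ (H : MSeq nz nw) (U : MSeq nz nu) (V : MSeq ny nw),
      Counterexample H U V ∧ IsIntPoly H ∧ IsIntPoly U ∧ IsIntPoly V ∧
      (nu ≤ nz → ny < nw → FullRank U V) ∧ SharpNotDFinite H U V := by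
  obtain ⟨P, D, g, hg, hgD, hP⟩ := stab_h2
  obtain ⟨M, hM⟩ := exists_nat_ge (max 1 (∑' n, |PowerSeries.coeff n g|))
  have hM1 : (1 : ℝ) ≤ M := (le_max_left _ _).trans hM
  have hM2 : ∑' n, |PowerSeries.coeff n g| ≤ M := (le_max_right _ _).trans hM
  have hMD : C (M : ℤ) * D ≠ 0 := by
    apply mul_ne_zero
    · intro h
      have : (M : ℤ) = 0 := by simpa using h
      have h0 : (M : ℝ) = 0 := by exact_mod_cast this
      linarith
    · intro h
      rw [h, zp_zero, mul_zero] at hgD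
      exact zero_ne_one hgD
  have hH := intPoly_all (V := HF nz nw M P) PS_HF
  have hU := intPoly_all (V := UR nz nu) PS_UR
  have hV := intPoly_all (V := VF nw ny M D) PS_VF
  have hs : SharpNotDFinite (HF nz nw M P) (UR nz nu) (VF nw ny M D) := by
    refine sharp_not (sharp_fir h1 h2 (⟨0, h3⟩ : Fin nu) rfl (⟨0, by omega⟩ : Fin ny) rfl
      (⟨1, by omega⟩ : Fin ny) rfl g hg hgD hP hM2) (fun k => ?_)
    rw [← coeff_PS (Qf nu ny) _ _ k, PS_Qf, if_pos ⟨rfl, rfl⟩, PowerSeries.coeff_mk]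
  refine ⟨HF nz nw M P, UR nz nu, VF nw ny M D, ?_, hH.2.2, hU.2.2, hV.2.2,
    fun hu hy => fullRank_fir hu hy h2 hMD, hs⟩
  exact counterexample_of hH.1 hU.1 hV.1 hH.2.1 hU.2.1 hV.2.1 (not_oneBlock_fir h2) hs

/-- Non-rational optima in multi-block `ℓ¹` optimal control.

* A rational multi-block instance with attained minimum and without rational optimal solution
  exists in the format `(nz, nw, nu, ny)` if and only if `nz * nw ≥ 2`.
* In all these formats there is one in which `U` and `V` are polynomial matrices with integer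
  coefficients, of full column and full row normal rank whenever `nu ≤ nz`, `ny ≤ nw` and
  `(nu, ny) ≠ (nz, nw)`, and in which the minimum is sharp at a solution with an entry which is
  not D-finite.
* For `nw ≥ 3`, `ny ≥ 2` there is also such an instance in which all three of `H`, `U`, `V` are
  polynomial matrices with integer coefficients (finite impulse response data). -/
theorem result :
    (∀ nz nw nu ny : ℕ, 1 ≤ nz → 1 ≤ nw → 1 ≤ nu → 1 ≤ ny →
      ((∃ (H : MSeq nz nw) (U : MSeq nz nu) (V : MSeq ny nw), Counterexample H U V)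
        ↔ 2 ≤ nz * nw)) ∧
    (∀ nz nw nu ny : ℕ, 1 ≤ nz → 1 ≤ nw → 1 ≤ nu → 1 ≤ ny → 2 ≤ nz * nw →
      ∃ (H : MSeq nz nw) (U : MSeq nz nu) (V : MSeq ny nw),
        Counterexample H U V ∧ IsIntPoly U ∧ IsIntPoly V ∧
        (nu ≤ nz → ny ≤ nw → (nu, ny) ≠ (nz, nw) → FullRank U V) ∧ SharpNotDFinite H U V) ∧
    (∀ nz nw nu ny : ℕ, 1 ≤ nz → 3 ≤ nw → 1 ≤ nu → 2 ≤ ny →
      ∃ (H : MSeq nz nw) (U : MSeq nz nu) (V : MSeq ny nw),
        Counterexample H U V ∧ IsIntPoly H ∧ IsIntPoly U ∧ IsIntPoly V ∧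
        (nu ≤ nz → ny < nw → FullRank U V) ∧ SharpNotDFinite H U V) := by
  have main : ∀ nz nw nu ny : ℕ, 1 ≤ nz → 1 ≤ nw → 1 ≤ nu → 1 ≤ ny → 2 ≤ nz * nw →
      ∃ (H : MSeq nz nw) (U : MSeq nz nu) (V : MSeq ny nw),
        Counterexample H U V ∧ IsIntPoly U ∧ IsIntPoly V ∧
        (nu ≤ nz → ny ≤ nw → (nu, ny) ≠ (nz, nw) → FullRank U V) ∧ SharpNotDFinite H U V := by
    intro nz nw nu ny h1 h2 h3 h4 h5
    by_cases hy : 2 ≤ nw ∧ (ny < nw ∨ nz = 1 ∨ nz ≤ nu)
    · obtain ⟨H, U, V, hc, hU, hV, hr, hs⟩ := row_case nz nw nu ny h1 hy.1 h3 h4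
      refine ⟨H, U, V, hc, hU, hV, fun a b c => ?_, hs⟩
      apply hr a
      by_contra hcon
      have e1 : ny = nw := by omega
      have e2 : nu ≠ nz := fun h => c (by rw [h, e1])
      omega
    · have hz : 2 ≤ nz := by
        by_contra hcon
        have e : nz = 1 := by omega
        subst e
        apply hy
        omega
      obtain ⟨H, U, V, hc, hU, hV, hr, hs⟩ := col_case nz nw nu ny hz h2 h3 h4
      refine ⟨H, U, V, hc, hU, hV, fun a b c => ?_, hs⟩
      apply hr _ b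
      by_contra hcon
      have e1 : nu = nz := by omega
      have e2 : ny ≠ nw := fun h => c (by rw [h, e1])
      omega
  refine ⟨fun nz nw nu ny h1 h2 h3 h4 => ⟨?_, ?_⟩, main, ?_⟩
  · rintro ⟨H, U, V, hc⟩
    by_contra hcon
    have e : nz * nw = 1 := by
      have : 1 ≤ nz * nw := Nat.mul_pos h1 h2
      omega
    have e1 : nz = 1 := Nat.dvd_one.mp ⟨nw, e.symm⟩
    have e2 : nw = 1 := Nat.dvd_one.mp ⟨nz, by rw [mul_comm]; exact e.symm⟩
    subst e1
    subst e2
    obtain ⟨-, -, -, -, rU, rV, hb, -, hn⟩ := hc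
    obtain ⟨Q, hQ, hr⟩ := small_format H U V rU rV hb
    exact hn Q hQ hr
  · intro h
    obtain ⟨H, U, V, hc, -⟩ := main nz nw nu ny h1 h2 h3 h4 h
    exact ⟨H, U, V, hc⟩
  · intro nz nw nu ny h1 h2 h3 h4
    exact fir_case nz nw nu ny h1 h2 h3 h4

end Pool.Agent.Results.MP_c74d57_an.EveryFormat
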